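import Mathlib
import Pool.Agent.Q235.CP.Conv

set_option autoImplicit false

/-!
# MP_c84763_mp, Q1: for every `d ≥ 2` and `γ > 0` one potential `V ∈ L^(γ+d/2)(ℝ^d)` of compact
support has `S_(γ,σ)(V,h) ≥ c h^(-d) log(1/h)` for all `0 ≤ σ ≤ d/2` and all small `h`.

The potential is `V(x) = i + W(x)` in the unit ball and `0` outside, with
`W(x) = (1-|x|²)^(-1/(2γ+d))` for `1/2 < |x|² < 1` and `W = 0` for `|x|² ≤ 1/2`.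
-/

namespace Pool.Agent.Results.MP_c84763_mp.LogDivergence

open MeasureTheory Filter Topology
open scoped ENNReal

noncomputable section

/-- Euclidean space `ℝ^d` -/
abbrev EE (d : ℕ) := EuclideanSpace ℝ (Fin d)

/-- test functions `C_c^∞(ℝ^d; ℂ)` -/
def IsTest {d : ℕ} (φ : EE d → ℂ) : Prop := ContDiff ℝ (⊤ : ℕ∞) φ ∧ HasCompactSupport φ

/-- the `i`-th partial derivative -/
def pder {d : ℕ} (i : Fin d) (φ : EE d → ℂ) (x : EE d) : ℂ :=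
  fderiv ℝ φ x (EuclideanSpace.single i 1)

/-- `u ∈ H¹(ℝ^d)` and `D = (∂_1 u, …, ∂_d u)` are its weak derivatives, all in `L²` -/
def IsGrad {d : ℕ} (u : EE d → ℂ) (D : Fin d → EE d → ℂ) : Prop :=
  MemLp u 2 volume ∧ (∀ i, MemLp (D i) 2 volume) ∧
    ∀ (i : Fin d) (φ : EE d → ℂ), IsTest φ → ∫ x, u x * pder i φ x = - ∫ x, D i x * φ x

/-- `u`, with weak gradient `D`, is in the form domain `{u ∈ H¹ : ∫ |V| |u|² < ∞}` -/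
def InForm {d : ℕ} (V : EE d → ℂ) (u : EE d → ℂ) (D : Fin d → EE d → ℂ) : Prop :=
  IsGrad u D ∧ Integrable (fun x => ‖V x‖ * ‖u x‖ ^ 2) volume

/-- `u` is in the domain of `H_h = -h²Δ + V` and `H_h u = f ∈ L²`: `u` lies in the form domain and
`h² ∫ ∇u·conj(∇φ) + ∫ V u conj(φ) = ∫ f conj(φ)` for all `φ` in the form domain. -/
def IsHu {d : ℕ} (h : ℝ) (V : EE d → ℂ) (u f : EE d → ℂ) : Prop :=
  MemLp f 2 volume ∧ ∃ D : Fin d → EE d → ℂ, InForm V u D ∧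
    ∀ (φ : EE d → ℂ) (E : Fin d → EE d → ℂ), InForm V φ E →
      ((h ^ 2 : ℝ) : ℂ) * ∑ i, (∫ x, D i x * (starRingEnd ℂ) (E i x)) +
        ∫ x, V x * u x * (starRingEnd ℂ) (φ x) = ∫ x, f x * (starRingEnd ℂ) (φ x)

/-- `(H_h - E)^n u = 0` for some `n`: there is a chain `c 0 = u`, `c n = 0` (almost everywhere),
`H_h (c i) = c (i+1) + E c i`. -/
def IsGen {d : ℕ} (h : ℝ) (V : EE d → ℂ) (E : ℂ) (u : EE d → ℂ) : Prop :=
  ∃ (n : ℕ) (c : ℕ → EE d → ℂ), c 0 = u ∧ (∀ᵐ x, c n x = 0) ∧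
    ∀ i < n, IsHu h V (c i) (fun x => c (i + 1) x + E * c i x)

/-- the algebraic multiplicity of `E`: the supremum of all `n` such that there are `n` generalised
eigenfunctions, linearly independent in `L²` (modulo null functions) -/
def algMult {d : ℕ} (h : ℝ) (V : EE d → ℂ) (E : ℂ) : ℕ∞ :=
  ⨆ (n : ℕ) (_ : ∃ u : Fin n → EE d → ℂ, (∀ i, IsGen h V E (u i)) ∧
    ∀ a : Fin n → ℂ, (∀ᵐ x, ∑ i, a i * u i x = 0) → a = 0), (n : ℕ∞)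

/-- `δ(E) = dist(E, [0,∞))` -/
def delta (E : ℂ) : ℝ := Metric.infDist E {z : ℂ | 0 ≤ z.re ∧ z.im = 0}

/-- `S_(γ,σ)(V,h) = ∑ |E|^(-σ) δ(E)^(γ+σ)` over the eigenvalues with algebraic multiplicity
(points `E ∈ [0,∞)` contribute `0` because `δ(E) = 0` there). -/
def eigSum {d : ℕ} (h : ℝ) (V : EE d → ℂ) (γ σ : ℝ) : ℝ≥0∞ :=
  ∑' E : ℂ, (algMult h V E : ℝ≥0∞) * ENNReal.ofReal (‖E‖ ^ (-σ) * delta E ^ (γ + σ))

theorem result (d : ℕ) (hd : 1 ≤ d) (γ : ℝ) (hγ : 0 < γ) :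
    ∃ V : EE d → ℂ, MemLp V (ENNReal.ofReal (γ + d / 2)) volume ∧
      (∀ x, 1 ≤ ‖x‖ → V x = 0) ∧ (∀ x, 0 ≤ (V x).re ∧ 0 ≤ (V x).im ∧ (V x).im ≤ 1) ∧
      (∃ c : ℝ, 0 < c ∧ ∃ h₀ : ℝ, 0 < h₀ ∧ ∀ σ : ℝ, 0 ≤ σ → σ ≤ d / 2 →
        ∀ h : ℝ, 0 < h → h < h₀ →
          ENNReal.ofReal (c * Real.log (1 / h) / h ^ d) ≤ eigSum h V γ σ) ∧
      ∀ σ : ℝ, 0 ≤ σ → σ ≤ d / 2 →
        Tendsto (fun h : ℝ => ENNReal.ofReal (h ^ d) * eigSum h V γ σ) (𝓝[>] 0) (𝓝 ⊤) :=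
  Pool.Agent.Q235.CP.F.main d hd γ hγ

end

end Pool.Agent.Results.MP_c84763_mp.LogDivergence
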